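import Pool.Agent.Y345.Types2

/-!
A group divisible design with block size `9` of type `72^37 72^1`, found by computer, and
the Steiner system `S(2737,9,2)`.
-/

set_option autoImplicit false
set_option maxRecDepth 100000

namespace Pool.Agent.Y345

/-- base blocks of a group divisible design of type `72^37 72^1` -/
def b72_37_72 : List (List ℕ) :=
  [[0, 1, 188, 205, 694, 1070, 1844, 1896, 1945],
  [0, 2, 798, 1179, 1313, 1476, 1605, 1814, 2661],
  [0, 4, 553, 599, 846, 1378, 1763, 2389, 2730],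
  [0, 6, 307, 1125, 1615, 1706, 2156, 2529, 2670],
  [0, 7, 63, 641, 1689, 1787, 1969, 2260, 2362],
  [0, 8, 644, 669, 750, 1074, 1163, 1719, 2319],
  [0, 9, 45, 123, 282, 906, 1502, 1571, 2135],
  [0, 10, 85, 126, 265, 580, 1607, 2555, 2674],
  [0, 11, 630, 1402, 1738, 2000, 2015, 2027, 2070],
  [0, 13, 854, 1105, 1587, 1938, 2199, 2348, 2712],
  [0, 14, 210, 248, 857, 1187, 1447, 1624, 1870],
  [0, 16, 224, 344, 856, 1688, 1920, 2112, 2272],
  [0, 18, 360, 1442, 1685, 2044, 2189, 2465, 2572],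
  [0, 19, 191, 757, 1274, 1742, 2508, 2561, 2727],
  [0, 20, 409, 469, 696, 1318, 1604, 1921, 2630],
  [0, 21, 68, 371, 711, 858, 944, 1254, 2247],
  [0, 22, 48, 121, 524, 1261, 1766, 2252, 2497],
  [0, 23, 420, 1051, 1483, 1701, 2005, 2231, 2592],
  [0, 24, 488, 872, 1024, 1192, 1976, 2008, 2424],
  [0, 28, 457, 707, 1015, 1143, 1498, 2369, 2481],
  [0, 29, 100, 161, 893, 1132, 1458, 1658, 2520],
  [0, 30, 933, 1117, 1268, 1373, 1835, 1923, 2551],
  [0, 31, 554, 942, 1449, 1940, 2133, 2467, 2702],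
  [0, 33, 705, 855, 1133, 1908, 2270, 2490, 2570],
  [0, 35, 77, 181, 535, 692, 915, 966, 1005],
  [0, 40, 178, 254, 579, 623, 2265, 2358, 2528],
  [0, 50, 546, 701, 1359, 1910, 2193, 2289, 2556],
  [0, 57, 258, 341, 1058, 1329, 1764, 2054, 2223],
  [0, 58, 343, 1030, 1504, 1644, 2095, 2307, 2605],
  [0, 62, 867, 1021, 1412, 1537, 1794, 2415, 2680],
  [0, 64, 601, 787, 1398, 1754, 1918, 1983, 2120],
  [0, 66, 219, 836, 1214, 1393, 2343, 2461, 2688],
  [0, 67, 238, 845, 1111, 1193, 1324, 1530, 2708],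
  [0, 79, 166, 418, 1284, 1515, 1783, 2101, 2296],
  [0, 84, 561, 947, 1259, 1495, 1657, 1956, 2071],
  [0, 97, 367, 497, 639, 892, 1211, 1401, 2434],
  [0, 124, 604, 1010, 1368, 1745, 2117, 2333, 2466],
  [0, 165, 618, 839, 1081, 1445, 1670, 1911, 2383]]

theorem g72_37_72 : Gd 9 (fun i : Fin (37 + 1) => if i = 0 then 72 else 72) :=
  gd_of_chk (m := 2664) (c := 1) (hs := [8, 8, 8, 8, 8, 8, 8, 8, 8]) (base := b72_37_72) 72 72
    (by decide +kernel) (by norm_num) (by norm_num)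

theorem s73 : Sd 9 73 :=
  sd_of_chk (m := 73) (c := 1) (hs := []) (base := [[1, 2, 4, 8, 16, 32, 37, 55, 64]])
    (by decide +kernel) (by norm_num)

theorem s2737 : Sd 9 2737 :=
  sd_of_type (w := 1) (by norm_num) g72_37_72 (hd_of_sd le_rfl s73) s73

end Pool.Agent.Y345
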