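import Pool.Agent.Y345.Types

/-!
Group divisible designs with block size `6` of the types `30^19 75^1`, `25^29 70^1` and
`5^139 75^1`, found by computer; the kernel checks them through their cyclic automorphism groups.
-/

set_option autoImplicit false
set_option maxRecDepth 100000

namespace Pool.Agent.Y345

/-- base blocks of a group divisible design of type `30^19 75^1` -/
def b30_19_75 : List (List ℕ) :=
  [[0, 1, 82, 199, 455, 611],
  [0, 2, 41, 317, 465, 617],
  [0, 3, 52, 310, 334, 597],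
  [0, 4, 169, 336, 411, 626],
  [0, 5, 432, 474, 490, 541],
  [0, 6, 201, 208, 365, 619],
  [0, 8, 98, 158, 270, 450],
  [0, 9, 23, 131, 184, 509],
  [0, 10, 35, 354, 402, 481],
  [0, 11, 404, 436, 508, 584],
  [0, 12, 200, 233, 264, 572],
  [0, 13, 40, 309, 364, 400],
  [0, 15, 86, 227, 272, 642],
  [0, 17, 37, 100, 230, 447],
  [0, 18, 111, 214, 449, 580],
  [0, 21, 241, 271, 415, 544],
  [0, 22, 363, 460, 514, 612],
  [0, 28, 222, 265, 524, 613],
  [0, 44, 136, 327, 452, 585],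
  [0, 50, 204, 330, 389, 483],
  [0, 65, 142, 289, 391, 596],
  [0, 66, 215, 388, 501, 639],
  [0, 68, 187, 293, 482, 631]]

theorem g30_19_75 : Gd 6 (fun i : Fin (19 + 1) => if i = 0 then 75 else 30) :=
  gd_of_chk (m := 570) (c := 1) (hs := [15, 15, 15, 10, 10, 10]) (base := b30_19_75) 30 75
    (by decide +kernel) (by norm_num) (by norm_num)

/-- base blocks of a group divisible design of type `25^29 70^1` -/
def b25_29_70 : List (List ℕ) :=
  [[0, 1, 194, 229, 271, 579],
  [0, 2, 10, 381, 607, 660],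
  [0, 3, 189, 291, 527, 772],
  [0, 4, 94, 221, 576, 679],
  [0, 5, 60, 93, 285, 444],
  [0, 6, 160, 177, 410, 432],
  [0, 7, 301, 412, 517, 617],
  [0, 9, 48, 486, 562, 766],
  [0, 11, 264, 627, 713, 788],
  [0, 13, 204, 382, 456, 737],
  [0, 14, 61, 263, 577, 763],
  [0, 15, 125, 195, 484, 608],
  [0, 16, 414, 602, 628, 777],
  [0, 18, 69, 466, 587, 749],
  [0, 19, 68, 391, 687, 729],
  [0, 20, 330, 505, 564, 663],
  [0, 21, 190, 275, 347, 642],
  [0, 24, 197, 268, 331, 740],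
  [0, 25, 408, 515, 595, 659],
  [0, 27, 164, 388, 611, 793],
  [0, 28, 84, 196, 227, 753],
  [0, 30, 73, 304, 433, 633],
  [0, 32, 151, 519, 573, 756],
  [0, 34, 386, 423, 512, 781],
  [0, 36, 81, 266, 416, 549],
  [0, 40, 222, 300, 467, 546],
  [0, 41, 136, 306, 441, 624],
  [0, 44, 376, 507, 673, 731]]

theorem g25_29_70 : Gd 6 (fun i : Fin (29 + 1) => if i = 0 then 70 else 25) :=
  gd_of_chk (m := 725) (c := 1) (hs := [5, 5, 5, 5, 5, 5, 5, 5, 5, 5, 5, 5, 5, 5]) (base := b25_29_70) 25 70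
    (by decide +kernel) (by norm_num) (by norm_num)

/-- base blocks of a group divisible design of type `5^139 75^1` -/
def b5_139_75 : List (List ℕ) :=
  [[0, 1, 131, 177, 422, 506],
  [0, 2, 308, 420, 575, 660],
  [0, 3, 127, 174, 191, 739],
  [0, 4, 166, 222, 373, 713],
  [0, 5, 41, 261, 466, 485],
  [0, 6, 307, 364, 408, 764],
  [0, 7, 18, 286, 399, 704],
  [0, 8, 48, 193, 208, 300],
  [0, 9, 173, 457, 566, 749],
  [0, 10, 115, 192, 295, 378],
  [0, 12, 38, 239, 281, 744],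
  [0, 13, 334, 357, 436, 706],
  [0, 14, 114, 474, 560, 628],
  [0, 16, 150, 356, 499, 636],
  [0, 20, 70, 257, 330, 562],
  [0, 21, 99, 283, 332, 715],
  [0, 22, 111, 429, 453, 728],
  [0, 25, 379, 470, 523, 574],
  [0, 27, 179, 231, 398, 733],
  [0, 28, 93, 258, 605, 663],
  [0, 29, 98, 161, 567, 723],
  [0, 30, 136, 246, 555, 629],
  [0, 31, 76, 147, 472, 527],
  [0, 33, 211, 424, 587, 757],
  [0, 34, 328, 447, 641, 766],
  [0, 39, 82, 536, 608, 752],
  [0, 61, 397, 539, 633, 695],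
  [0, 80, 228, 345, 442, 600]]

theorem g5_139_75 : Gd 6 (fun i : Fin (139 + 1) => if i = 0 then 75 else 5) :=
  gd_of_chk (m := 695) (c := 1) (hs := [5, 5, 5, 5, 5, 5, 5, 5, 5, 5, 5, 5, 5, 5, 5]) (base := b5_139_75) 5 75
    (by decide +kernel) (by norm_num) (by norm_num)

end Pool.Agent.Y345
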