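import Pool.Agent.Y345.Cyc

/-!
The check for base blocks of a group divisible design with a cyclic group of automorphisms.
-/

set_option autoImplicit false

namespace Pool.Agent.Y345

open Finset

/-- the bit mask of a list -/
def msk : List ℕ → ℕ
  | [] => 0
  | d :: l => (1 <<< d) ||| msk l

theorem testBit_msk (l : List ℕ) (d : ℕ) : Nat.testBit (msk l) d = true ↔ d ∈ l := by
  induction l with
  | nil => simp [msk]
  | cons a l ih =>
    rw [msk, Nat.testBit_or, Bool.or_eq_true, ih, Nat.one_shiftLeft, Nat.testBit_two_pow,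
      List.mem_cons, decide_eq_true_eq]
    constructor
    · rintro (h | h)
      · exact Or.inl h.symm
      · exact Or.inr h
    · rintro (h | h)
      · exact Or.inl h.symm
      · exact Or.inr h

/-- the union of bit masks -/
def orl : List ℕ → ℕ
  | [] => 0
  | d :: l => d ||| orl l

theorem testBit_orl (l : List ℕ) (d : ℕ) :
    Nat.testBit (orl l) d = true ↔ ∃ a ∈ l, Nat.testBit a d = true := by
  induction l with
  | nil => simp [orl]
  | cons a l ih =>
    rw [orl, Nat.testBit_or, Bool.or_eq_true, ih]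
    simp

/-- removal of duplicates -/
def dd : List ℕ → List ℕ
  | [] => []
  | a :: l => if l.elem a then dd l else a :: dd l

theorem mem_dd (l : List ℕ) (a : ℕ) : a ∈ dd l ↔ a ∈ l := by
  induction l with
  | nil => simp [dd]
  | cons b l ih =>
    rw [dd]
    split_ifs with h
    · rw [ih, List.mem_cons]
      have : b ∈ l := by simpa using h
      constructor
      · exact Or.inr
      · rintro (rfl | h')
        · exact this
        · exact h'
    · rw [List.mem_cons, List.mem_cons, ih]

/-- the masks of the translates through the representative of the orbit `i` -/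
def trs (m u : ℕ) (hs : List ℕ) (i : ℕ) : List (List ℕ) → List ℕ
  | [] => []
  | B :: l => (B.filter fun p => decide (p < u) && (p / m == i)).map
      (fun p => msk (B.map (tr m u hs (m - p % m)))) ++ trs m u hs i l

theorem mem_trs {m u : ℕ} {hs : List ℕ} {i : ℕ} {base : List (List ℕ)} {a : ℕ} :
    a ∈ trs m u hs i base ↔ ∃ B ∈ base, ∃ p ∈ B, p < u ∧ p / m = i ∧
      a = msk (B.map (tr m u hs (m - p % m))) := by
  induction base with
  | nil => simp [trs]
  | cons C l ih =>
    rw [trs, List.mem_append, ih, List.mem_map]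
    constructor
    · rintro (⟨p, hp, rfl⟩ | ⟨B, hB, h⟩)
      · rw [List.mem_filter] at hp
        simp only [Bool.and_eq_true, decide_eq_true_eq, beq_iff_eq] at hp
        exact ⟨C, List.mem_cons_self, p, hp.1, hp.2.1, hp.2.2, rfl⟩
      · exact ⟨B, List.mem_cons_of_mem _ hB, h⟩
    · rintro ⟨B, hB, p, hp, h1, h2, rfl⟩
      rcases List.mem_cons.1 hB with rfl | hB
      · left
        refine ⟨p, ?_, rfl⟩
        rw [List.mem_filter]
        simp only [Bool.and_eq_true, decide_eq_true_eq, beq_iff_eq]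
        exact ⟨hp, h1, h2⟩
      · exact Or.inr ⟨B, hB, p, hp, h1, h2, rfl⟩

/-- the check for one orbit -/
def chk1 (k m u v : ℕ) (hs : List ℕ) (κ : ℕ → ℕ) (g : ℕ) (base : List (List ℕ)) (i : ℕ) : Bool :=
  let M := dd (trs m u hs i base)
  let t := orl M
  let r := key m u κ g (i * m)
  ((List.range v).all fun y => (key m u κ g y == r) || Nat.testBit t y) &&
    decide ((k - 1) * M.length ≤ ((List.range v).filter fun y => !(key m u κ g y == r)).length)

/-- the check of the base blocks -/
def chk (k m c : ℕ) (hs : List ℕ) (κ : ℕ → ℕ) (g : ℕ) (base : List (List ℕ)) : Bool :=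
  decide (2 ≤ k) && decide (0 < m) && decide (0 < g) && (m % g == 0) &&
    (hs.all fun s => decide (0 < s) && (m % s == 0)) &&
    (base.all fun B => (B.length == k) && decide B.Nodup &&
      (B.all fun x => decide (x < c * m + hs.sum)) &&
      decide ((B.filter fun x => !decide (x < c * m)).length ≤ 1)) &&
    ((List.range c).all fun i => chk1 k m (c * m) (c * m + hs.sum) hs κ g base i)

/-- counting at a point -/
theorem local_count {k : ℕ} (T : Finset (Finset ℕ)) (Y : Finset ℕ) (hk : 0 < k)
    (h5 : ∀ D ∈ T, D.card = k) (hcov : ∀ y ∈ Y, ∃ D ∈ T, y ∈ D) (hc : k * T.card ≤ Y.card) :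
    (∀ D ∈ T, D ⊆ Y) ∧ ∀ D ∈ T, ∀ D' ∈ T, ∀ y, y ∈ D → y ∈ D' → D = D' := by
  classical
  have h1 : Y ⊆ T.biUnion id := by
    intro y hy
    obtain ⟨D, hD, h⟩ := hcov y hy
    exact Finset.mem_biUnion.2 ⟨D, hD, h⟩
  have h2 : (T.biUnion id).card ≤ T.card * k := Finset.card_biUnion_le_card_mul _ _ _
    (fun D hD => (h5 D hD).le)
  have h3 : Y = T.biUnion id := Finset.eq_of_subset_of_card_le h1 (by
    rw [mul_comm] at h2
    exact h2.trans hc)
  refine ⟨?_, ?_⟩
  · intro D hD y hy
    rw [h3]
    exact Finset.mem_biUnion.2 ⟨D, hD, hy⟩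
  · intro D hD D' hD' y hy hy'
    by_contra hne
    have h4 : T.biUnion id ⊆ (T.erase D).biUnion id ∪ D.erase y := by
      intro z hz
      obtain ⟨C, hC, hzC⟩ := Finset.mem_biUnion.1 hz
      rw [Finset.mem_union]
      by_cases hCD : C = D
      · by_cases hzy : z = y
        · left
          rw [hzy]
          exact Finset.mem_biUnion.2 ⟨D', Finset.mem_erase.2 ⟨fun h => hne h.symm, hD'⟩, hy'⟩
        · right
          subst hCD
          exact Finset.mem_erase.2 ⟨hzy, hzC⟩
      · left
        exact Finset.mem_biUnion.2 ⟨C, Finset.mem_erase.2 ⟨hCD, hC⟩, hzC⟩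
    have h6 := Finset.card_le_card h4
    have h7 := Finset.card_union_le ((T.erase D).biUnion id) (D.erase y)
    have h8 : ((T.erase D).biUnion id).card ≤ (T.erase D).card * k :=
      Finset.card_biUnion_le_card_mul _ _ _
        (fun C hC => (h5 C (Finset.mem_of_mem_erase hC)).le)
    rw [Finset.card_erase_of_mem hD] at h8
    rw [Finset.card_erase_of_mem hy, h5 D hD] at h7
    rw [h3] at hc
    have h9 : 0 < T.card := Finset.card_pos.2 ⟨D, hD⟩
    obtain ⟨n, hn⟩ : ∃ n, T.card = n + 1 := ⟨T.card - 1, by omega⟩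
    rw [hn] at hc h8
    rw [Nat.add_sub_cancel] at h8
    have h10 : k * (n + 1) = n * k + k := by ring
    omega

/-- The base blocks that pass the check give a group divisible design. -/
theorem de_of_chk {k m c : ℕ} {hs : List ℕ} {κ : ℕ → ℕ} {g : ℕ} {base : List (List ℕ)}
    (h : chk k m c hs κ g base = true) :
    De k (fun x y : ℕ => x ∈ Finset.range (c * m + hs.sum) ∧ y ∈ Finset.range (c * m + hs.sum) ∧
      key m (c * m) κ g x ≠ key m (c * m) κ g y) := by
  classical
  unfold chk at h
  simp only [Bool.and_eq_true, decide_eq_true_eq, beq_iff_eq, List.all_eq_true] at h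
  obtain ⟨⟨⟨⟨⟨⟨hk, hm⟩, hg⟩, hgm⟩, hhs⟩, hB⟩, hi⟩ := h
  have hgm' : g ∣ m := Nat.dvd_of_mod_eq_zero hgm
  have hp : ∀ s ∈ hs, 0 < s := fun s hs' => (hhs s hs').1
  have hd : ∀ s ∈ hs, s ∣ m := fun s hs' => Nat.dvd_of_mod_eq_zero (hhs s hs').2
  obtain ⟨u, hu⟩ : ∃ u, c * m = u := ⟨_, rfl⟩
  obtain ⟨v, hv⟩ : ∃ v, u + hs.sum = v := ⟨_, rfl⟩
  rw [hu, hv] at hi hB ⊢
  -- the family
  let 𝓑 : Set (Finset ℕ) := {D | ∃ B ∈ base, ∃ a, D = B.toFinset.image (tr m u hs a)}
  have hinj : ∀ a, Function.Injective (tr m u hs a) := fun a x y h => tr_inj hm hu hp hd h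
  have hcardB : ∀ D ∈ 𝓑, D.card = k := by
    rintro D ⟨B, hBb, a, rfl⟩
    rw [Finset.card_image_of_injective _ (hinj a), List.toFinset_card_of_nodup (hB B hBb).1.1.2,
      (hB B hBb).1.1.1]
  have hltB : ∀ D ∈ 𝓑, ∀ x ∈ D, x < v := by
    rintro D ⟨B, hBb, a, rfl⟩ x hx
    obtain ⟨y, hy, rfl⟩ := Finset.mem_image.1 hx
    exact tr_lt hm hu hv hp ((hB B hBb).1.2 y (List.mem_toFinset.1 hy))
  have hholeB : ∀ D ∈ 𝓑, ∀ x ∈ D, ∀ y ∈ D, x ≠ y → ¬ x < u → ¬ y < u → False := by
    rintro D ⟨B, hBb, a, rfl⟩ x hx y hy hxy hxu hyu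
    obtain ⟨x', hx', rfl⟩ := Finset.mem_image.1 hx
    obtain ⟨y', hy', rfl⟩ := Finset.mem_image.1 hy
    have h1 : ¬ x' < u := fun h => hxu (tr_lt_u hm hu h)
    have h2 : ¬ y' < u := fun h => hyu (tr_lt_u hm hu h)
    have h3 : x' ≠ y' := fun h => hxy (by rw [h])
    have h4 : ({x', y'} : Finset ℕ) ⊆ (B.filter fun x => !decide (x < u)).toFinset := by
      intro z hz
      rw [List.mem_toFinset, List.mem_filter]
      rw [List.mem_toFinset] at hx' hy'
      rcases Finset.mem_insert.1 hz with rfl | hz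
      · exact ⟨hx', by simpa using h1⟩
      · rw [Finset.mem_singleton.1 hz]
        exact ⟨hy', by simpa using h2⟩
    have h5 := Finset.card_le_card h4
    rw [Finset.card_pair h3] at h5
    have h6 := (hB B hBb).2
    have h7 := List.toFinset_card_le (B.filter fun x => !decide (x < u))
    omega
  have htrB : ∀ D ∈ 𝓑, ∀ a, D.image (tr m u hs a) ∈ 𝓑 := by
    rintro D ⟨B, hBb, b, rfl⟩ a
    refine ⟨B, hBb, b + a, ?_⟩
    rw [Finset.image_image]
    congr 1
    funext x
    exact tr_add hm hu hp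
  -- the local situation at the representative of an orbit
  have hloc : ∀ i < c, (∀ y, y < v → key m u κ g y ≠ key m u κ g (i * m) →
      ∃ D ∈ 𝓑, i * m ∈ D ∧ y ∈ D ∧ ∀ D' ∈ 𝓑, i * m ∈ D' → y ∈ D' → D' = D) ∧
      ∀ D ∈ 𝓑, i * m ∈ D → ∀ y ∈ D, y ≠ i * m → key m u κ g y ≠ key m u κ g (i * m) := by
    intro i hic
    have hir : i * m < u := by
      rw [← hu]
      exact Nat.mul_lt_mul_of_pos_right hic hm
    have h1 := hi i (List.mem_range.2 hic)
    unfold chk1 at h1
    simp only [Bool.and_eq_true, decide_eq_true_eq, Bool.or_eq_true, beq_iff_eq,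
      List.all_eq_true, List.mem_range] at h1
    obtain ⟨h1, h2⟩ := h1
    let S : ℕ → Finset ℕ := fun a => (Finset.range v).filter fun z => Nat.testBit a z = true
    -- the set of a mask
    have hS : ∀ a ∈ trs m u hs i base, S a ∈ 𝓑 ∧ i * m ∈ S a := by
      intro a ha
      obtain ⟨B, hBb, p, hp', hpu, hpi, rfl⟩ := mem_trs.1 ha
      have e1 : S (msk (B.map (tr m u hs (m - p % m)))) =
          B.toFinset.image (tr m u hs (m - p % m)) := by
        ext z
        rw [Finset.mem_filter, testBit_msk, List.mem_map, Finset.mem_image, Finset.mem_range]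
        constructor
        · rintro ⟨-, q, hq, rfl⟩
          exact ⟨q, List.mem_toFinset.2 hq, rfl⟩
        · rintro ⟨q, hq, rfl⟩
          rw [List.mem_toFinset] at hq
          exact ⟨tr_lt hm hu hv hp ((hB B hBb).1.2 q hq), q, hq, rfl⟩
      rw [e1]
      refine ⟨⟨B, hBb, _, rfl⟩, Finset.mem_image.2 ⟨p, List.mem_toFinset.2 hp', ?_⟩⟩
      unfold tr
      have := Nat.mod_lt p hm
      rw [if_pos hpu, hpi, show p % m + (m - p % m) = m by omega, Nat.mod_self, Nat.add_zero]
    -- every member through the representative arises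
    have hS2 : ∀ D ∈ 𝓑, i * m ∈ D → ∃ a ∈ trs m u hs i base, S a = D := by
      rintro D ⟨B, hBb, a, rfl⟩ hr
      obtain ⟨p, hp', hpr⟩ := Finset.mem_image.1 hr
      rw [List.mem_toFinset] at hp'
      have hpu : p < u := by
        by_contra h
        have := tr_ge_u (m := m) (hs := hs) (a := a) h
        rw [hpr] at this
        exact this hir
      have hpm := Nat.mod_lt p hm
      have e1 : p / m * m + (p % m + a) % m = i * m + 0 := by
        rw [Nat.add_zero, ← hpr]
        unfold tr
        rw [if_pos hpu]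
      have e2 : p / m = i := dv2 (Nat.mod_lt _ hm) hm e1
      have e3 : (p % m + a) % m = 0 := by
        rw [e2] at e1
        omega
      obtain ⟨j, hj⟩ := Nat.dvd_of_mod_eq_zero e3
      have e4 : ∀ q, tr m u hs a q = tr m u hs (m - p % m) q := by
        intro q
        have e5 : tr m u hs (a + m * 1) q = tr m u hs ((m - p % m) + m * j) q := by
          congr 1
          omega
        rw [← tr_add hm hu hp, ← tr_add hm hu hp, tr_period hd, tr_period hd] at e5
        exact e5
      refine ⟨_, mem_trs.2 ⟨B, hBb, p, hp', hpu, e2, rfl⟩, ?_⟩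
      ext z
      rw [Finset.mem_filter, testBit_msk, List.mem_map, Finset.mem_image, Finset.mem_range]
      constructor
      · rintro ⟨-, q, hq, rfl⟩
        exact ⟨q, List.mem_toFinset.2 hq, e4 q⟩
      · rintro ⟨q, hq, rfl⟩
        rw [List.mem_toFinset] at hq
        exact ⟨tr_lt hm hu hv hp ((hB B hBb).1.2 q hq), q, hq, (e4 q).symm⟩
    let T : Finset (Finset ℕ) := (dd (trs m u hs i base)).toFinset.image fun a => (S a).erase (i * m)
    let Y : Finset ℕ := (Finset.range v).filter fun y => key m u κ g y ≠ key m u κ g (i * m)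
    have hT : ∀ D, D ∈ T ↔ ∃ a ∈ trs m u hs i base, (S a).erase (i * m) = D := by
      intro D
      simp only [T, Finset.mem_image, List.mem_toFinset, mem_dd]
    have hY : Y.card = ((List.range v).filter fun y =>
        !(key m u κ g y == key m u κ g (i * m))).length := by
      have : Y = ((List.range v).filter fun y =>
          !(key m u κ g y == key m u κ g (i * m))).toFinset := by
        ext z
        simp [Y]
      rw [this, List.toFinset_card_of_nodup (List.nodup_range.filter _)]
    have hcount := local_count T Y (k := k - 1) (by omega) (by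
      intro D hD
      obtain ⟨a, ha, rfl⟩ := (hT D).1 hD
      obtain ⟨h3, h4⟩ := hS a ha
      rw [Finset.card_erase_of_mem h4, hcardB _ h3]) (by
      intro y hy
      obtain ⟨h3, h4⟩ := Finset.mem_filter.1 hy
      rcases h1 y (Finset.mem_range.1 h3) with h5 | h5
      · exact absurd h5 h4
      · obtain ⟨a, ha, h6⟩ := (testBit_orl _ _).1 h5
        rw [mem_dd] at ha
        refine ⟨_, (hT _).2 ⟨a, ha, rfl⟩, Finset.mem_erase.2 ⟨?_, Finset.mem_filter.2 ⟨h3, h6⟩⟩⟩
        rintro rfl
        exact h4 rfl) (by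
      rw [hY]
      refine le_trans (Nat.mul_le_mul_left _ ?_) h2
      exact Finset.card_image_le.trans (List.toFinset_card_le _))
    constructor
    · intro y hy hyr
      have hyY : y ∈ Y := Finset.mem_filter.2 ⟨Finset.mem_range.2 hy, hyr⟩
      rcases h1 y hy with h5 | h5
      · exact absurd h5 hyr
      · obtain ⟨a, ha, h6⟩ := (testBit_orl _ _).1 h5
        rw [mem_dd] at ha
        obtain ⟨h7, h8⟩ := hS a ha
        have h9 : y ∈ S a := Finset.mem_filter.2 ⟨Finset.mem_range.2 hy, h6⟩
        have hyne : y ≠ i * m := fun h => hyr (by rw [h])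
        refine ⟨S a, h7, h8, h9, ?_⟩
        intro D' hD' h10 h11
        obtain ⟨b, hb, rfl⟩ := hS2 D' hD' h10
        have h12 := hcount.2 _ ((hT _).2 ⟨b, hb, rfl⟩) _ ((hT _).2 ⟨a, ha, rfl⟩) y
          (Finset.mem_erase.2 ⟨hyne, h11⟩) (Finset.mem_erase.2 ⟨hyne, h9⟩)
        rw [← Finset.insert_erase h10, h12, Finset.insert_erase h8]
    · intro D hD hr y hy hyr
      obtain ⟨a, ha, rfl⟩ := hS2 D hD hr
      have h3 := hcount.1 _ ((hT _).2 ⟨a, ha, rfl⟩) (Finset.mem_erase.2 ⟨hyr, hy⟩)
      exact (Finset.mem_filter.1 h3).2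
  -- moving a regular point to the representative
  have hmove : ∀ x, x < u → ∃ i < c, tr m u hs (m - x % m) x = i * m := by
    intro x hx
    refine ⟨x / m, Nat.div_lt_of_lt_mul (by rw [mul_comm, hu]; exact hx), ?_⟩
    have := Nat.mod_lt x hm
    unfold tr
    rw [if_pos hx, show x % m + (m - x % m) = m by omega, Nat.mod_self, Nat.add_zero]
  have hback : ∀ x q, x < u → tr m u hs (x % m) (tr m u hs (m - x % m) q) = q := by
    intro x q hx
    have := Nat.mod_lt x hm
    rw [tr_add hm hu hp, show m - x % m + x % m = m * 1 by omega, tr_period hd]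
  -- pairs with a regular point
  have hreg : ∀ x y, x < u → y < v → key m u κ g x ≠ key m u κ g y →
      ∃ D ∈ 𝓑, x ∈ D ∧ y ∈ D ∧ ∀ D' ∈ 𝓑, x ∈ D' → y ∈ D' → D' = D := by
    intro x y hx hy hxy
    obtain ⟨i, hic, hxi⟩ := hmove x hx
    have h1 : key m u κ g (tr m u hs (m - x % m) y) ≠ key m u κ g (i * m) := by
      rw [← hxi]
      intro h
      exact hxy ((key_tr hm hu hgm' hg).1 h).symm
    obtain ⟨D, hD, h2, h3, h4⟩ := (hloc i hic).1 _ (tr_lt hm hu hv hp hy) h1
    refine ⟨D.image (tr m u hs (x % m)), htrB D hD _, ?_, ?_, ?_⟩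
    · have h5 := Finset.mem_image_of_mem (tr m u hs (x % m)) h2
      rwa [← hxi, hback x x hx] at h5
    · have h5 := Finset.mem_image_of_mem (tr m u hs (x % m)) h3
      rwa [hback x y hx] at h5
    · intro D' hD' h5 h6
      have h7 := h4 (D'.image (tr m u hs (m - x % m))) (htrB D' hD' _)
        (by rw [← hxi]; exact Finset.mem_image_of_mem _ h5) (Finset.mem_image_of_mem _ h6)
      rw [← h7, Finset.image_image]
      have h8 : (tr m u hs (x % m)) ∘ (tr m u hs (m - x % m)) = id := by
        funext q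
        exact hback x q hx
      rw [h8, Finset.image_id]
  refine ⟨𝓑, hcardB, ?_, ?_⟩
  · intro D hD x hx y hy hxy
    refine ⟨Finset.mem_range.2 (hltB D hD x hx), Finset.mem_range.2 (hltB D hD y hy), ?_⟩
    have key2 : ∀ x ∈ D, ∀ y ∈ D, x ≠ y → x < u → key m u κ g x ≠ key m u κ g y := by
      intro x hx y hy hxy hxu h
      obtain ⟨i, hic, hxi⟩ := hmove x hxu
      have h1 := (hloc i hic).2 (D.image (tr m u hs (m - x % m))) (htrB D hD _)
        (by rw [← hxi]; exact Finset.mem_image_of_mem _ hx) (tr m u hs (m - x % m) y)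
        (Finset.mem_image_of_mem _ hy)
        (by rw [← hxi]; exact fun h => hxy (hinj _ h).symm)
      rw [← hxi] at h1
      exact h1 ((key_tr hm hu hgm' hg).2 h.symm)
    by_cases hxu : x < u
    · exact key2 x hx y hy hxy hxu
    · by_cases hyu : y < u
      · exact fun h => key2 y hy x hx (fun h => hxy h.symm) hyu h.symm
      · exact (hholeB D hD x hx y hy hxy hxu hyu).elim
  · rintro x y hxy ⟨hx, hy, hk'⟩
    rw [Finset.mem_range] at hx hy
    by_cases hxu : x < u
    · exact hreg x y hxu hy hk'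
    · by_cases hyu : y < u
      · obtain ⟨D, hD, h1, h2, h3⟩ := hreg y x hyu hx (fun h => hk' h.symm)
        exact ⟨D, hD, h2, h1, fun D' hD' h4 h5 => h3 D' hD' h5 h4⟩
      · exfalso
        apply hk'
        unfold key
        rw [if_neg hxu, if_neg hyu]

end Pool.Agent.Y345
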