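import Mathlib

/-!
Families of `k`-subsets that cover exactly the pairs of a relation: unions, images, filling of
groups, and Wilson's weighting construction.
-/

set_option autoImplicit false

namespace Pool.Agent.Y345

open Finset

/-- `Cv k E 𝓑`: the members of `𝓑` are `k`-subsets, two distinct points of a member are related
by `E`, and two distinct related points lie in exactly one member. -/
structure Cv {X : Type*} (k : ℕ) (E : X → X → Prop) (𝓑 : Set (Finset X)) : Prop where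
  card : ∀ B ∈ 𝓑, B.card = k
  sub : ∀ B ∈ 𝓑, ∀ a ∈ B, ∀ b ∈ B, a ≠ b → E a b
  ex : ∀ a b, a ≠ b → E a b → ∃ B ∈ 𝓑, a ∈ B ∧ b ∈ B ∧ ∀ D ∈ 𝓑, a ∈ D → b ∈ D → D = B

/-- there is a family of `k`-subsets covering exactly the pairs of `E` -/
def De {X : Type*} (k : ℕ) (E : X → X → Prop) : Prop := ∃ 𝓑 : Set (Finset X), Cv k E 𝓑

theorem De.congr {X : Type*} {k : ℕ} {E F : X → X → Prop} (h : De k E)
    (hEF : ∀ a b, a ≠ b → (E a b ↔ F a b)) : De k F := by
  obtain ⟨𝓑, h1, h2, h3⟩ := h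
  exact ⟨𝓑, h1, fun B hB a ha b hb hab => (hEF a b hab).1 (h2 B hB a ha b hb hab),
    fun a b hab h => h3 a b hab ((hEF a b hab).2 h)⟩

/-- images under a map that is injective on the points that occur -/
theorem De.map {X Y : Type*} {k : ℕ} {E : X → X → Prop} (h : De k E) (hk : 2 ≤ k) (f : X → Y)
    (P : X → Prop) (hP : ∀ a b, a ≠ b → E a b → P a ∧ P b)
    (hf : ∀ a b, P a → P b → f a = f b → a = b) :
    De k (fun a b => ∃ x y, f x = a ∧ f y = b ∧ x ≠ y ∧ E x y) := by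
  classical
  obtain ⟨𝓑, h1, h2, h3⟩ := h
  have hPB : ∀ B ∈ 𝓑, ∀ x ∈ B, P x := by
    intro B hB x hx
    obtain ⟨y, hy, hyx⟩ : ∃ y ∈ B, y ≠ x := by
      have : 1 < B.card := by rw [h1 B hB]; omega
      exact Finset.exists_mem_ne this x
    exact (hP x y hyx.symm (h2 B hB x hx y hy hyx.symm)).1
  have hinj : ∀ B ∈ 𝓑, Set.InjOn f B := by
    intro B hB x hx y hy hxy
    exact hf x y (hPB B hB x hx) (hPB B hB y hy) hxy
  refine ⟨{C | ∃ B ∈ 𝓑, C = B.image f}, ?_, ?_, ?_⟩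
  · rintro C ⟨B, hB, rfl⟩
    rw [Finset.card_image_of_injOn (hinj B hB), h1 B hB]
  · rintro C ⟨B, hB, rfl⟩ a ha b hb hab
    obtain ⟨x, hx, rfl⟩ := Finset.mem_image.1 ha
    obtain ⟨y, hy, rfl⟩ := Finset.mem_image.1 hb
    have hxy : x ≠ y := fun h => hab (by rw [h])
    exact ⟨x, y, rfl, rfl, hxy, h2 B hB x hx y hy hxy⟩
  · rintro a b hab ⟨x, y, rfl, rfl, hxy, hE⟩
    obtain ⟨B, hB, hx, hy, hu⟩ := h3 x y hxy hE
    refine ⟨B.image f, ⟨B, hB, rfl⟩, Finset.mem_image_of_mem f hx, Finset.mem_image_of_mem f hy, ?_⟩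
    rintro D ⟨B', hB', rfl⟩ h4 h5
    obtain ⟨x', hx', hxx⟩ := Finset.mem_image.1 h4
    obtain ⟨y', hy', hyy⟩ := Finset.mem_image.1 h5
    have e1 : x' = x := hf x' x (hPB B' hB' x' hx') (hPB B hB x hx) hxx
    have e2 : y' = y := hf y' y (hPB B' hB' y' hy') (hPB B hB y hy) hyy
    subst e1 e2
    rw [hu B' hB' hx' hy']

/-- unions of families for disjoint relations -/
theorem De.iUnion {X ι : Type*} {k : ℕ} {E : ι → X → X → Prop} (h : ∀ i, De k (E i))
    (hd : ∀ i j a b, a ≠ b → E i a b → E j a b → i = j) :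
    De k (fun a b => ∃ i, E i a b) := by
  choose 𝓑 h𝓑 using h
  refine ⟨{B | ∃ i, B ∈ 𝓑 i}, ?_, ?_, ?_⟩
  · rintro B ⟨i, hB⟩
    exact (h𝓑 i).card B hB
  · rintro B ⟨i, hB⟩ a ha b hb hab
    exact ⟨i, (h𝓑 i).sub B hB a ha b hb hab⟩
  · rintro a b hab ⟨i, hE⟩
    obtain ⟨B, hB, ha, hb, hu⟩ := (h𝓑 i).ex a b hab hE
    refine ⟨B, ⟨i, hB⟩, ha, hb, ?_⟩
    rintro D ⟨j, hD⟩ ha' hb'
    have hj := hd j i a b hab ((h𝓑 j).sub D hD a ha' b hb' hab) hE
    subst hj
    exact hu D hD ha' hb'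

theorem De.empty {X : Type*} (k : ℕ) {E : X → X → Prop} (h : ∀ a b, a ≠ b → ¬ E a b) :
    De k E :=
  ⟨∅, by simp, by simp, fun a b hab hE => absurd hE (h a b hab)⟩

theorem De.or {X : Type*} {k : ℕ} {E F : X → X → Prop} (h1 : De k E) (h2 : De k F)
    (hd : ∀ a b, a ≠ b → E a b → ¬ F a b) : De k (fun a b => E a b ∨ F a b) := by
  have := De.iUnion (ι := Bool) (k := k) (E := fun i => if i then E else F)
    (by rintro (_ | _) <;> simpa) (by
      rintro (_ | _) (_ | _) a b hab h h'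
      · rfl
      · exact absurd h (hd a b hab h')
      · exact absurd h' (hd a b hab h)
      · rfl)
  refine this.congr ?_
  intro a b _
  constructor
  · rintro ⟨_ | _, h⟩
    · exact Or.inr h
    · exact Or.inl h
  · rintro (h | h)
    · exact ⟨true, h⟩
    · exact ⟨false, h⟩

/-- Wilson's construction: a family of sets covering every pair of `E` exactly once, and for each
member `A` a family on the copies of the points of `A`. -/
theorem De.weight {X : Type*} {k : ℕ} {E : X → X → Prop} (𝓐 : Set (Set X)) (w : X → ℕ)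
    (hsub : ∀ A ∈ 𝓐, ∀ a ∈ A, ∀ b ∈ A, a ≠ b → E a b)
    (hex : ∀ a b, a ≠ b → E a b → ∃ A ∈ 𝓐, a ∈ A ∧ b ∈ A)
    (huniq : ∀ A ∈ 𝓐, ∀ A' ∈ 𝓐, ∀ a b, a ≠ b → a ∈ A → b ∈ A → a ∈ A' → b ∈ A' → A = A')
    (hirr : ∀ a, ¬ E a a)
    (hi : ∀ A ∈ 𝓐, De k (fun p q : X × ℕ => p.1 ≠ q.1 ∧ p.1 ∈ A ∧ q.1 ∈ A ∧
      p.2 < w p.1 ∧ q.2 < w q.1)) :
    De k (fun p q : X × ℕ => E p.1 q.1 ∧ p.2 < w p.1 ∧ q.2 < w q.1) := by
  have h := De.iUnion (ι := 𝓐) (k := k) (E := fun A => fun p q : X × ℕ => p.1 ≠ q.1 ∧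
    p.1 ∈ A.1 ∧ q.1 ∈ A.1 ∧ p.2 < w p.1 ∧ q.2 < w q.1) (fun A => hi A.1 A.2) (by
      rintro ⟨A, hA⟩ ⟨A', hA'⟩ a b _ ⟨hab, h1, h2, _⟩ ⟨_, h3, h4, _⟩
      exact Subtype.ext (huniq A hA A' hA' _ _ hab h1 h2 h3 h4))
  refine h.congr ?_
  rintro a b _
  constructor
  · rintro ⟨⟨A, hA⟩, h1, h2, h3, h4, h5⟩
    exact ⟨hsub A hA _ h2 _ h3 h1, h4, h5⟩
  · rintro ⟨h1, h2, h3⟩
    have hne : a.1 ≠ b.1 := by
      intro h
      rw [h] at h1
      exact hirr _ h1
    obtain ⟨A, hA, ha, hb⟩ := hex _ _ hne h1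
    exact ⟨⟨A, hA⟩, hne, ha, hb, h2, h3⟩

/-! ### Group divisible designs, incomplete designs, Steiner systems with block size `k` -/

/-- group divisible designs with groups of sizes `f i` -/
def Gd (k : ℕ) {ι : Type*} (f : ι → ℕ) : Prop :=
  De k (fun a b : ι × ℕ => a.1 ≠ b.1 ∧ a.2 < f a.1 ∧ b.2 < f b.1)

/-- incomplete designs with `g` points outside the hole and `w` points in the hole -/
def Hd (k g w : ℕ) : Prop :=
  De k (fun a b : ℕ => a < g + w ∧ b < g + w ∧ ¬ (g ≤ a ∧ g ≤ b))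

/-- pairwise balanced designs with one block size `k` on `n` points -/
def Sd (k n : ℕ) : Prop := De k (fun a b : ℕ => a < n ∧ b < n)

theorem sd_of_hd {k g w : ℕ} (hw : w ≤ 1) (h : Hd k g w) : Sd k (g + w) := by
  refine h.congr ?_
  intro a b hab
  constructor
  · rintro ⟨h1, h2, -⟩
    exact ⟨h1, h2⟩
  · rintro ⟨h1, h2⟩
    refine ⟨h1, h2, ?_⟩
    rintro ⟨h3, h4⟩
    omega

theorem hd_of_sd {k g w : ℕ} (hw : w ≤ 1) (h : Sd k (g + w)) : Hd k g w := by
  refine h.congr ?_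
  intro a b hab
  constructor
  · rintro ⟨h1, h2⟩
    refine ⟨h1, h2, ?_⟩
    rintro ⟨h3, h4⟩
    omega
  · rintro ⟨h1, h2, -⟩
    exact ⟨h1, h2⟩

/-- filling the hole -/
theorem sd_of_hd_of_sd {k g w : ℕ} (hk : 2 ≤ k) (h : Hd k g w) (h' : Sd k w) : Sd k (g + w) := by
  have h2 := h'.map hk (fun a => g + a) (fun _ => True) (fun _ _ _ _ => ⟨trivial, trivial⟩)
    (fun a b _ _ h => by simpa using h)
  refine (De.or h h2 ?_).congr ?_
  · rintro a b hab ⟨-, -, h3⟩ ⟨x, y, rfl, rfl, -⟩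
    exact h3 ⟨by omega, by omega⟩
  · intro a b hab
    constructor
    · rintro (⟨h1, h2, -⟩ | ⟨x, y, rfl, rfl, -, h1, h2⟩)
      · exact ⟨h1, h2⟩
      · exact ⟨by omega, by omega⟩
    · rintro ⟨h1, h2⟩
      by_cases hh : g ≤ a ∧ g ≤ b
      · right
        exact ⟨a - g, b - g, by omega, by omega, by omega, by omega, by omega⟩
      · exact Or.inl ⟨h1, h2, hh⟩

/-- an incomplete design on an arbitrary finite set -/
theorem hd_of_finset {Y : Type*} {k g w : ℕ} (hk : 2 ≤ k) (P H : Finset Y) (hH : H ⊆ P)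
    (hc : P.card = g + w) (hw : H.card = w)
    (h : De k (fun a b : Y => a ∈ P ∧ b ∈ P ∧ ¬ (a ∈ H ∧ b ∈ H))) : Hd k g w := by
  classical
  have hc1 : Fintype.card {x // x ∈ P \ H} = Fintype.card (Fin g) := by
    rw [Fintype.card_coe, Finset.card_sdiff_of_subset hH, hc, hw]
    simp
  have hc2 : Fintype.card {x // x ∈ H} = Fintype.card (Fin w) := by
    rw [Fintype.card_coe, hw]
    simp
  let e1 := Fintype.equivOfCardEq hc1
  let e2 := Fintype.equivOfCardEq hc2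
  obtain ⟨e, he⟩ : ∃ e : Y → ℕ, e = fun x => if h : x ∈ H then g + (e2 ⟨x, h⟩).val else
      if h' : x ∈ P \ H then (e1 ⟨x, h'⟩).val else 0 := ⟨_, rfl⟩
  have heH : ∀ x (h : x ∈ H), e x = g + (e2 ⟨x, h⟩).val := by
    intro x h
    rw [he]
    exact dif_pos h
  have heP : ∀ x (h : x ∈ P \ H), e x = (e1 ⟨x, h⟩).val := by
    intro x h
    rw [he]
    exact (dif_neg (Finset.mem_sdiff.1 h).2).trans (dif_pos h)
  have hinj : ∀ x y, x ∈ P → y ∈ P → e x = e y → x = y := by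
    intro x y hx hy hxy
    by_cases h4 : x ∈ H
    · by_cases h5 : y ∈ H
      · rw [heH x h4, heH y h5] at hxy
        have : e2 ⟨x, h4⟩ = e2 ⟨y, h5⟩ := Fin.ext (by omega)
        simpa using e2.injective this
      · have h6 : y ∈ P \ H := Finset.mem_sdiff.2 ⟨hy, h5⟩
        rw [heH x h4, heP y h6] at hxy
        have := (e1 ⟨y, h6⟩).2
        omega
    · have h6 : x ∈ P \ H := Finset.mem_sdiff.2 ⟨hx, h4⟩
      by_cases h5 : y ∈ H
      · rw [heP x h6, heH y h5] at hxy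
        have := (e1 ⟨x, h6⟩).2
        omega
      · have h7 : y ∈ P \ H := Finset.mem_sdiff.2 ⟨hy, h5⟩
        rw [heP x h6, heP y h7] at hxy
        have : e1 ⟨x, h6⟩ = e1 ⟨y, h7⟩ := Fin.ext hxy
        simpa using e1.injective this
  have he2 : ∀ x ∈ P, e x < g + w ∧ (g ≤ e x ↔ x ∈ H) := by
    intro x hx
    by_cases h4 : x ∈ H
    · have h7 := (e2 ⟨x, h4⟩).2
      rw [heH x h4]
      exact ⟨by omega, fun _ => h4, fun _ => by omega⟩
    · have h6 : x ∈ P \ H := Finset.mem_sdiff.2 ⟨hx, h4⟩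
      have h7 := (e1 ⟨x, h6⟩).2
      rw [heP x h6]
      exact ⟨by omega, fun h => by omega, fun h => absurd h h4⟩
  have hsur : ∀ a < g + w, ∃ x ∈ P, e x = a := by
    have himg : P.image e = Finset.range (g + w) := by
      apply Finset.eq_of_subset_of_card_le
      · intro y hy
        obtain ⟨x, hx, rfl⟩ := Finset.mem_image.1 hy
        exact Finset.mem_range.2 (he2 x hx).1
      · rw [Finset.card_image_of_injOn (fun x hx y hy h => hinj x y hx hy h), Finset.card_range, hc]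
    intro a ha
    have : a ∈ P.image e := by rw [himg]; exact Finset.mem_range.2 ha
    exact Finset.mem_image.1 this
  refine (h.map hk e (fun x => x ∈ P) (fun a b _ h => ⟨h.1, h.2.1⟩) hinj).congr ?_
  intro a b hab
  constructor
  · rintro ⟨x, y, rfl, rfl, hxy, h4, h5, h6⟩
    have h7 := he2 x h4
    have h8 := he2 y h5
    refine ⟨h7.1, h8.1, ?_⟩
    rw [h7.2, h8.2]
    exact h6
  · rintro ⟨h4, h5, h6⟩
    obtain ⟨x, hx, rfl⟩ := hsur a h4
    obtain ⟨y, hy, rfl⟩ := hsur b h5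
    have h7 := he2 x hx
    have h8 := he2 y hy
    rw [h7.2, h8.2] at h6
    exact ⟨x, y, rfl, rfl, fun h => hab (by rw [h]), hx, hy, h6⟩

/-- a Steiner system has a block, which may be taken as a hole -/
theorem hd_of_sd_block {k g : ℕ} (hk : 2 ≤ k) (h : Sd k (g + k)) : Hd k g k := by
  classical
  obtain ⟨𝓑, h1, h2, h3⟩ := h
  obtain ⟨B, hB, -⟩ := h3 0 1 (by omega) ⟨by omega, by omega⟩
  have hBlt : ∀ x ∈ B, x < g + k := by
    intro x hx
    obtain ⟨y, hy, hyx⟩ : ∃ y ∈ B, y ≠ x := by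
      have : 1 < B.card := by rw [h1 B hB]; omega
      exact Finset.exists_mem_ne this x
    exact (h2 B hB x hx y hy hyx.symm).1
  refine hd_of_finset hk (Finset.range (g + k)) B (fun x hx => Finset.mem_range.2 (hBlt x hx))
    (by simp) (h1 B hB) ?_
  refine ⟨𝓑 \ {B}, fun D hD => h1 D hD.1, ?_, ?_⟩
  · rintro D ⟨hD, hDB⟩ a ha b hb hab
    have := h2 D hD a ha b hb hab
    refine ⟨Finset.mem_range.2 this.1, Finset.mem_range.2 this.2, ?_⟩
    rintro ⟨ha', hb'⟩
    obtain ⟨C, hC, -, -, hu⟩ := h3 a b hab this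
    exact hDB (by rw [Set.mem_singleton_iff, hu D hD ha hb, hu B hB ha' hb'])
  · rintro a b hab ⟨h4, h5, h6⟩
    obtain ⟨C, hC, ha, hb, hu⟩ := h3 a b hab ⟨Finset.mem_range.1 h4, Finset.mem_range.1 h5⟩
    refine ⟨C, ⟨hC, ?_⟩, ha, hb, fun D hD => hu D hD.1⟩
    rintro rfl
    exact h6 ⟨ha, hb⟩

/-- a group divisible design on an arbitrary finite set -/
theorem gd_of_key {X ι : Type*} {k : ℕ} [DecidableEq ι] (hk : 2 ≤ k) (P : Finset X) (key : X → ι)
    (f : ι → ℕ) (hc : ∀ i, (P.filter fun x => key x = i).card = f i)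
    (h : De k (fun a b : X => a ∈ P ∧ b ∈ P ∧ key a ≠ key b)) : Gd k f := by
  classical
  have hc' : ∀ i, Fintype.card {x // x ∈ P.filter fun x => key x = i} = Fintype.card (Fin (f i)) := by
    intro i
    rw [Fintype.card_coe, hc i]
    simp
  let e' := fun i => Fintype.equivOfCardEq (hc' i)
  obtain ⟨e, he⟩ : ∃ e : X → ι × ℕ, e = fun x => (key x, if h : x ∈ P.filter fun y => key y = key x
      then (e' (key x) ⟨x, h⟩).val else 0) := ⟨_, rfl⟩
  have hmem : ∀ x ∈ P, x ∈ P.filter fun y => key y = key x :=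
    fun x hx => Finset.mem_filter.2 ⟨hx, rfl⟩
  have he1 : ∀ x, (e x).1 = key x := by
    intro x
    rw [he]
  have he2 : ∀ x (hx : x ∈ P), (e x).2 = (e' (key x) ⟨x, hmem x hx⟩).val := by
    intro x hx
    rw [he]
    exact dif_pos (hmem x hx)
  have hinj : ∀ x y, x ∈ P → y ∈ P → e x = e y → x = y := by
    intro x y hx hy hxy
    have h1 : key x = key y := by rw [← he1 x, ← he1 y, hxy]
    have h2 : (e x).2 = (e y).2 := by rw [hxy]
    rw [he2 x hx, he2 y hy] at h2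
    have h3 : ∀ i (h : i = key y) (h4 : y ∈ P.filter fun z => key z = i),
        (e' i ⟨y, h4⟩).val = (e' (key y) ⟨y, hmem y hy⟩).val := by
      rintro i rfl h4
      rfl
    have h4 : y ∈ P.filter fun z => key z = key x := Finset.mem_filter.2 ⟨hy, h1.symm⟩
    rw [← h3 (key x) h1 h4] at h2
    have h5 := (e' (key x)).injective (Fin.ext h2)
    simpa using h5
  refine (h.map hk e (fun x => x ∈ P) (fun a b _ h => ⟨h.1, h.2.1⟩) hinj).congr ?_
  intro a b hab
  constructor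
  · rintro ⟨x, y, rfl, rfl, hxy, h4, h5, h6⟩
    rw [he1, he1, he2 x h4, he2 y h5]
    exact ⟨h6, (e' (key x) ⟨x, hmem x h4⟩).2, (e' (key y) ⟨y, hmem y h5⟩).2⟩
  · rintro ⟨h4, h5, h6⟩
    have hsur : ∀ a : ι × ℕ, a.2 < f a.1 → ∃ x ∈ P, e x = a := by
      rintro ⟨i, j⟩ hj
      obtain ⟨⟨x, hx⟩, hxe⟩ := (e' i).surjective ⟨j, hj⟩
      obtain ⟨hxP, hxi⟩ := Finset.mem_filter.1 hx
      subst hxi
      refine ⟨x, hxP, ?_⟩
      apply Prod.ext
      · rw [he1]
      · rw [he2 x hxP, hxe]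
    obtain ⟨x, hx, rfl⟩ := hsur a h5
    obtain ⟨y, hy, rfl⟩ := hsur b h6
    rw [he1, he1] at h4
    exact ⟨x, y, rfl, rfl, fun h => hab (by rw [h]), hx, hy, h4⟩

/-- the embedding of a group together with the extra points -/
def gW {ι : Type*} (f : ι → ℕ) (i : ι) (x : ℕ) : (ι × ℕ) ⊕ ℕ :=
  if x < f i then .inl (i, x) else .inr (x - f i)

/-- filling all groups but one of a group divisible design with incomplete designs -/
theorem fillH {ι : Type*} [Fintype ι] [DecidableEq ι] {k w : ℕ} (hk : 2 ≤ k) {f : ι → ℕ}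
    (hG : Gd k f) (i0 : ι) (h : ∀ i, i ≠ i0 → Hd k (f i) w) :
    Hd k (∑ i ∈ Finset.univ.erase i0, f i) (f i0 + w) := by
  classical
  have hgi : ∀ i x y, x < f i + w → y < f i + w → gW f i x = gW f i y → x = y := by
    intro i x y hx hy hxy
    unfold gW at hxy
    split_ifs at hxy with h1 h2 h2
    · simpa using hxy
    · simp only [Sum.inr.injEq] at hxy
      omega
  have h1 : De k (fun a b : (ι × ℕ) ⊕ ℕ => ∃ x y : ι × ℕ, Sum.inl x = a ∧ Sum.inl y = b ∧ x ≠ y ∧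
      (x.1 ≠ y.1 ∧ x.2 < f x.1 ∧ y.2 < f y.1)) :=
    hG.map hk Sum.inl (fun _ => True) (fun _ _ _ _ => ⟨trivial, trivial⟩)
      (fun a b _ _ h => Sum.inl_injective h)
  have h2 : ∀ i : {i : ι // i ≠ i0}, De k (fun a b : (ι × ℕ) ⊕ ℕ => ∃ x y : ℕ, gW f i.1 x = a ∧
      gW f i.1 y = b ∧ x ≠ y ∧ (x < f i.1 + w ∧ y < f i.1 + w ∧ ¬ (f i.1 ≤ x ∧ f i.1 ≤ y))) :=
    fun i => (h i.1 i.2).map hk (gW f i.1) (fun x => x < f i.1 + w)
      (fun _ _ _ h => ⟨h.1, h.2.1⟩) (hgi i.1)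
  have h3 := De.iUnion h2 (by
    rintro ⟨i, hi⟩ ⟨j, hj⟩ a b hab ⟨x, y, rfl, rfl, hxy, hx, hy, hh⟩ ⟨x', y', hx', hy', -, hh'⟩
    apply Subtype.ext
    show i = j
    unfold gW at hx' hy'
    by_cases h4 : x < f i
    · rw [if_pos h4] at hx'
      split_ifs at hx'
      simp only [Sum.inl.injEq, Prod.mk.injEq] at hx'
      exact hx'.1.symm
    · have h5 : y < f i := by
        by_contra h5
        exact hh ⟨by show f i ≤ x; omega, by show f i ≤ y; omega⟩
      rw [if_pos h5] at hy'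
      split_ifs at hy'
      simp only [Sum.inl.injEq, Prod.mk.injEq] at hy'
      exact hy'.1.symm)
  have h4 := De.or h1 h3 (by
    rintro a b hab ⟨x, y, rfl, rfl, hxy, h5, h6, h7⟩ ⟨⟨i, hi⟩, x', y', hx', hy', -, -⟩
    unfold gW at hx' hy'
    split_ifs at hx' hy'
    simp only [Sum.inl.injEq] at hx' hy'
    exact h5 (by rw [← hx', ← hy']))
  let P : Finset ((ι × ℕ) ⊕ ℕ) :=
    (Finset.univ.sigma fun i => Finset.range (f i)).map
      ⟨fun p => Sum.inl (p.1, p.2), fun p q h => by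
        simp only [Sum.inl.injEq, Prod.mk.injEq] at h
        exact Sigma.ext h.1 (by simpa using h.2)⟩ ∪
    (Finset.range w).map ⟨Sum.inr, Sum.inr_injective⟩
  let H : Finset ((ι × ℕ) ⊕ ℕ) :=
    (Finset.range (f i0)).map ⟨fun x => Sum.inl (i0, x), fun p q h => by
        simpa using h⟩ ∪
    (Finset.range w).map ⟨Sum.inr, Sum.inr_injective⟩
  have hP1 : ∀ i x, (Sum.inl (i, x) : (ι × ℕ) ⊕ ℕ) ∈ P ↔ x < f i := by
    intro i x
    simp only [P, Finset.mem_union, Finset.mem_map, Finset.mem_sigma, Finset.mem_univ, true_and,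
      Finset.mem_range, Function.Embedding.coeFn_mk]
    constructor
    · rintro (⟨⟨j, y⟩, h5, h6⟩ | ⟨y, h5, h6⟩)
      · obtain ⟨e1, e2⟩ := Prod.mk.inj (Sum.inl_injective h6)
        rw [← e1, ← e2]
        exact h5
      · exact absurd h6 Sum.inr_ne_inl
    · intro h
      exact Or.inl ⟨⟨i, x⟩, h, rfl⟩
  have hP2 : ∀ x, (Sum.inr x : (ι × ℕ) ⊕ ℕ) ∈ P ↔ x < w := by
    intro x
    simp only [P, Finset.mem_union, Finset.mem_map, Finset.mem_sigma, Finset.mem_univ, true_and,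
      Finset.mem_range, Function.Embedding.coeFn_mk]
    constructor
    · rintro (⟨⟨j, y⟩, h5, h6⟩ | ⟨y, h5, h6⟩)
      · exact absurd h6 Sum.inl_ne_inr
      · rwa [← Sum.inr_injective h6]
    · intro h
      exact Or.inr ⟨x, h, rfl⟩
  have hH1 : ∀ i x, (Sum.inl (i, x) : (ι × ℕ) ⊕ ℕ) ∈ H ↔ i = i0 ∧ x < f i0 := by
    intro i x
    simp only [H, Finset.mem_union, Finset.mem_map, Finset.mem_range,
      Function.Embedding.coeFn_mk]
    constructor
    · rintro (⟨y, h5, h6⟩ | ⟨y, h5, h6⟩)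
      · obtain ⟨e1, e2⟩ := Prod.mk.inj (Sum.inl_injective h6)
        rw [← e1, ← e2]
        exact ⟨rfl, h5⟩
      · exact absurd h6 Sum.inr_ne_inl
    · rintro ⟨rfl, h⟩
      exact Or.inl ⟨x, h, rfl⟩
  have hH2 : ∀ x, (Sum.inr x : (ι × ℕ) ⊕ ℕ) ∈ H ↔ x < w := by
    intro x
    simp [H]
  have hcP : P.card = ∑ i ∈ Finset.univ.erase i0, f i + (f i0 + w) := by
    rw [Finset.card_union_of_disjoint, Finset.card_map, Finset.card_map, Finset.card_sigma,
      Finset.card_range]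
    · simp only [Finset.card_range]
      rw [← Finset.sum_erase_add _ _ (Finset.mem_univ i0)]
      ring
    · rw [Finset.disjoint_left]
      intro a ha hb
      simp only [Finset.mem_map, Function.Embedding.coeFn_mk] at ha hb
      obtain ⟨p, -, rfl⟩ := ha
      obtain ⟨q, -, hq⟩ := hb
      exact Sum.inr_ne_inl hq
  have hcH : H.card = f i0 + w := by
    rw [Finset.card_union_of_disjoint, Finset.card_map, Finset.card_map, Finset.card_range,
      Finset.card_range]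
    rw [Finset.disjoint_left]
    intro a ha hb
    simp only [Finset.mem_map, Function.Embedding.coeFn_mk] at ha hb
    obtain ⟨p, -, rfl⟩ := ha
    obtain ⟨q, -, hq⟩ := hb
    exact Sum.inr_ne_inl hq
  refine hd_of_finset hk P H ?_ hcP hcH (h4.congr ?_)
  · rintro (⟨i, x⟩ | x) hx
    · rw [hH1] at hx
      rw [hP1, hx.1]
      exact hx.2
    · rw [hH2] at hx
      rwa [hP2]
  · rintro a b hab
    constructor
    · rintro (⟨x, y, rfl, rfl, hxy, h5, h6, h7⟩ | ⟨⟨i, hi⟩, x, y, rfl, rfl, hxy, h5, h6, h7⟩)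
      · rw [hP1, hP1, hH1, hH1]
        exact ⟨h6, h7, fun h => h5 (h.1.1.trans h.2.1.symm)⟩
      · simp only at h5 h6 h7
        by_cases hx : x < f i
        · have e1 : gW f i x = .inl (i, x) := if_pos hx
          by_cases hy : y < f i
          · have e2 : gW f i y = .inl (i, y) := if_pos hy
            rw [e1, e2, hP1, hP1, hH1, hH1]
            exact ⟨hx, hy, fun h => hi h.1.1⟩
          · have e2 : gW f i y = .inr (y - f i) := if_neg hy
            rw [e1, e2, hP1, hP2, hH1, hH2]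
            exact ⟨hx, by omega, fun h => hi h.1.1⟩
        · have e1 : gW f i x = .inr (x - f i) := if_neg hx
          by_cases hy : y < f i
          · have e2 : gW f i y = .inl (i, y) := if_pos hy
            rw [e1, e2, hP1, hP2, hH1, hH2]
            exact ⟨by omega, hy, fun h => hi h.2.1⟩
          · exact absurd ⟨by omega, by omega⟩ h7
    · rcases a with ⟨i, x⟩ | x <;> rcases b with ⟨j, y⟩ | y
      · rw [hP1, hP1, hH1, hH1]
        rintro ⟨h5, h6, h7⟩
        by_cases hij : i = j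
        · subst hij
          right
          have hi : i ≠ i0 := by
            rintro rfl
            exact h7 ⟨⟨rfl, h5⟩, ⟨rfl, h6⟩⟩
          refine ⟨⟨i, hi⟩, x, y, if_pos h5, if_pos h6, fun h => hab (by rw [h]), ?_, ?_, ?_⟩ <;>
            simp only <;> omega
        · exact Or.inl ⟨(i, x), (j, y), rfl, rfl, fun h => hij (Prod.mk.inj h).1, hij, h5, h6⟩
      · rw [hP1, hP2, hH1, hH2]
        rintro ⟨h5, h6, h7⟩
        right
        have hi : i ≠ i0 := by
          rintro rfl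
          exact h7 ⟨⟨rfl, h5⟩, h6⟩
        refine ⟨⟨i, hi⟩, x, f i + y, if_pos h5, ?_, ?_, ?_, ?_, ?_⟩
        · show gW f i (f i + y) = _
          unfold gW
          rw [if_neg (by omega), Nat.add_sub_cancel_left]
        all_goals (try simp only) <;> omega
      · rw [hP1, hP2, hH1, hH2]
        rintro ⟨h5, h6, h7⟩
        right
        have hi : j ≠ i0 := by
          rintro rfl
          exact h7 ⟨h5, ⟨rfl, h6⟩⟩
        refine ⟨⟨j, hi⟩, f j + x, y, ?_, if_pos h6, ?_, ?_, ?_, ?_⟩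
        · show gW f j (f j + x) = _
          unfold gW
          rw [if_neg (by omega), Nat.add_sub_cancel_left]
        all_goals (try simp only) <;> omega
      · rw [hP2, hP2, hH2, hH2]
        rintro ⟨h5, h6, h7⟩
        exact absurd ⟨h5, h6⟩ h7

/-- filling all groups of a group divisible design -/
theorem fillS {ι : Type*} [Fintype ι] [DecidableEq ι] {k w : ℕ} (hk : 2 ≤ k) {f : ι → ℕ}
    (hG : Gd k f) (i0 : ι) (h : ∀ i, i ≠ i0 → Hd k (f i) w) (h0 : Sd k (f i0 + w)) :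
    Sd k (∑ i, f i + w) := by
  have h1 := sd_of_hd_of_sd hk (fillH hk hG i0 h) h0
  rwa [← add_assoc, Finset.sum_erase_add _ _ (Finset.mem_univ i0)] at h1

end Pool.Agent.Y345
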