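import Pool.Agent.Y345.Core

/-!
Group divisible designs with a cyclic group of automorphisms, given by base blocks: a check that
can be executed by the kernel.

Points are natural numbers: `i * m + x` with `i < c` and `x < m` (the regular orbits), followed by
the points of the hole, whose orbits have the sizes listed in `hs`.
-/

set_option autoImplicit false

namespace Pool.Agent.Y345

open Finset

/-- translation of the hole points -/
def trh (a : ℕ) : List ℕ → ℕ → ℕ
  | [], q => q
  | s :: l, q => if q < s then (q + a) % s else s + trh a l (q - s)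

/-- translation by `a` -/
def tr (m u : ℕ) (hs : List ℕ) (a q : ℕ) : ℕ :=
  if q < u then q / m * m + (q % m + a) % m else u + trh a hs (q - u)

/-- the group of a point: `0` for the points of the hole -/
def key (m u : ℕ) (κ : ℕ → ℕ) (g q : ℕ) : ℕ :=
  if q < u then κ (q / m) * g + q % g + 1 else 0

theorem dv {a m r : ℕ} (h : r < m) : (a * m + r) / m = a := by
  rw [Nat.add_comm, Nat.add_mul_div_right _ _ (by omega), Nat.div_eq_of_lt h, Nat.zero_add]

theorem dv2 {a b m r s : ℕ} (hr : r < m) (hs : s < m) (h : a * m + r = b * m + s) : a = b := by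
  rw [← dv (a := a) hr, h, dv hs]

theorem trh_lt {a : ℕ} : ∀ {hs : List ℕ}, (∀ s ∈ hs, 0 < s) → ∀ {q}, q < hs.sum →
    trh a hs q < hs.sum
  | [], _, q, h => by simp at h
  | s :: l, hp, q, h => by
    rw [trh, List.sum_cons]
    rw [List.sum_cons] at h
    split_ifs with h1
    · have := Nat.mod_lt (q + a) (hp s (by simp))
      omega
    · have := trh_lt (a := a) (hs := l) (fun t ht => hp t (by simp [ht])) (q := q - s) (by omega)
      omega

theorem trh_add {a b : ℕ} : ∀ {hs : List ℕ}, (∀ s ∈ hs, 0 < s) → ∀ {q},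
    trh b hs (trh a hs q) = trh (a + b) hs q
  | [], _, q => rfl
  | s :: l, hp, q => by
    rw [trh, trh, trh]
    by_cases h1 : q < s
    · have := Nat.mod_lt (q + a) (hp s (by simp))
      rw [if_pos h1, if_pos this, if_pos h1, Nat.mod_add_mod, Nat.add_assoc]
    · rw [if_neg h1, if_neg h1, if_neg (by omega), Nat.add_sub_cancel_left,
        trh_add (fun t ht => hp t (by simp [ht]))]

theorem trh_period {m : ℕ} (j : ℕ) : ∀ {hs : List ℕ}, (∀ s ∈ hs, s ∣ m) → ∀ {q},
    trh (m * j) hs q = q
  | [], _, q => rfl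
  | s :: l, hp, q => by
    rw [trh]
    split_ifs with h1
    · obtain ⟨t, rfl⟩ := hp s (by simp)
      rw [mul_assoc, Nat.add_mul_mod_self_left, Nat.mod_eq_of_lt h1]
    · rw [trh_period j (fun t ht => hp t (by simp [ht]))]
      omega

section

variable {m c u v : ℕ} {hs : List ℕ} {κ : ℕ → ℕ} {g : ℕ}

theorem tr_lt_u (hm : 0 < m) (hu : c * m = u) {a q : ℕ} (hq : q < u) : tr m u hs a q < u := by
  unfold tr
  rw [if_pos hq]
  have h1 : q / m < c := Nat.div_lt_of_lt_mul (by rw [mul_comm, hu]; exact hq)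
  have h2 := Nat.mod_lt (q % m + a) hm
  calc q / m * m + (q % m + a) % m < q / m * m + m := by omega
    _ = (q / m + 1) * m := by ring
    _ ≤ c * m := Nat.mul_le_mul_right _ h1
    _ = u := hu

theorem tr_ge_u {a q : ℕ} (hq : ¬ q < u) : ¬ tr m u hs a q < u := by
  unfold tr
  rw [if_neg hq]
  omega

theorem tr_lt (hm : 0 < m) (hu : c * m = u) (hv : u + hs.sum = v) (hp : ∀ s ∈ hs, 0 < s)
    {a q : ℕ} (hq : q < v) : tr m u hs a q < v := by
  by_cases h1 : q < u
  · have := tr_lt_u (hs := hs) hm hu (a := a) h1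
    omega
  · unfold tr
    rw [if_neg h1]
    have := trh_lt (a := a) hp (q := q - u) (by omega)
    omega

theorem tr_add (hm : 0 < m) (hu : c * m = u) (hp : ∀ s ∈ hs, 0 < s) {a b q : ℕ} :
    tr m u hs b (tr m u hs a q) = tr m u hs (a + b) q := by
  by_cases h1 : q < u
  · have h2 := tr_lt_u (hs := hs) hm hu (a := a) h1
    have h3 : tr m u hs a q = q / m * m + (q % m + a) % m := by unfold tr; rw [if_pos h1]
    have h4 := Nat.mod_lt (q % m + a) hm
    have h5 : tr m u hs a q / m = q / m := by
      rw [h3, dv h4]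
    have h6 : tr m u hs a q % m = (q % m + a) % m := by
      rw [h3, Nat.mul_add_mod', Nat.mod_mod]
    have h7 : tr m u hs b (tr m u hs a q) = tr m u hs a q / m * m +
        (tr m u hs a q % m + b) % m := by
      rw [tr, if_pos h2]
    rw [h7, h5, h6, Nat.mod_add_mod, Nat.add_assoc]
    unfold tr
    rw [if_pos h1]
  · have h2 := tr_ge_u (m := m) (hs := hs) (a := a) h1
    have h3 : tr m u hs a q = u + trh a hs (q - u) := by unfold tr; rw [if_neg h1]
    rw [tr, if_neg h2, h3, Nat.add_sub_cancel_left, trh_add hp]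
    unfold tr
    rw [if_neg h1]

theorem tr_period (hd : ∀ s ∈ hs, s ∣ m) (j q : ℕ) : tr m u hs (m * j) q = q := by
  unfold tr
  split_ifs with h1
  · rw [Nat.add_mul_mod_self_left, Nat.mod_mod, mul_comm, Nat.div_add_mod]
  · rw [trh_period j hd]
    omega

theorem tr_inj (hm : 0 < m) (hu : c * m = u) (hp : ∀ s ∈ hs, 0 < s) (hd : ∀ s ∈ hs, s ∣ m)
    {a x y : ℕ} (h : tr m u hs a x = tr m u hs a y) : x = y := by
  have h1 : ∀ q, tr m u hs ((m - 1) * a) (tr m u hs a q) = q := by
    intro q
    rw [tr_add hm hu hp]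
    have : a + (m - 1) * a = m * a := by
      obtain ⟨n, rfl⟩ : ∃ n, m = n + 1 := ⟨m - 1, by omega⟩
      rw [Nat.add_sub_cancel]
      ring
    rw [this, tr_period hd]
  rw [← h1 x, ← h1 y, h]

theorem key_tr (hm : 0 < m) (hu : c * m = u) (hg : g ∣ m) (hg0 : 0 < g) {a x y : ℕ} :
    key m u κ g (tr m u hs a x) = key m u κ g (tr m u hs a y) ↔ key m u κ g x = key m u κ g y := by
  have h1 : ∀ q, q < u → key m u κ g (tr m u hs a q) = κ (q / m) * g + (q % g + a) % g + 1 := by
    intro q h1
    have h2 := tr_lt_u (hs := hs) hm hu (a := a) h1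
    have h3 : tr m u hs a q = q / m * m + (q % m + a) % m := by unfold tr; rw [if_pos h1]
    have h4 := Nat.mod_lt (q % m + a) hm
    have h5 : tr m u hs a q / m = q / m := by
      rw [h3, dv h4]
    have h6 : tr m u hs a q % g = (q % g + a) % g := by
      obtain ⟨t, rfl⟩ := hg
      have h7 : tr (g * t) u hs a q % (g * t) = (q % (g * t) + a) % (g * t) := by
        rw [h3, Nat.mul_add_mod', Nat.mod_mod]
      rw [← Nat.mod_mul_right_mod (tr (g * t) u hs a q) g t, h7, Nat.mod_mul_right_mod,
        Nat.add_mod, Nat.mod_mul_right_mod, ← Nat.add_mod, Nat.mod_add_mod]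
    unfold key
    rw [if_pos h2, h5, h6]
  have h2 : ∀ q, ¬ q < u → key m u κ g (tr m u hs a q) = 0 := by
    intro q h1
    unfold key
    rw [if_neg (tr_ge_u h1)]
  have h3 : ∀ q, q < u → key m u κ g q = κ (q / m) * g + q % g + 1 := by
    intro q h1
    unfold key
    rw [if_pos h1]
  have h4 : ∀ q, ¬ q < u → key m u κ g q = 0 := by
    intro q h1
    unfold key
    rw [if_neg h1]
  by_cases hx : x < u <;> by_cases hy : y < u
  · rw [h1 x hx, h1 y hy, h3 x hx, h3 y hy]
    have e1 := Nat.mod_lt (x % g + a) hg0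
    have e2 := Nat.mod_lt (y % g + a) hg0
    have e3 := Nat.mod_lt x hg0
    have e4 := Nat.mod_lt y hg0
    constructor
    · intro h
      have h5 : κ (x / m) * g + (x % g + a) % g = κ (y / m) * g + (y % g + a) % g := by omega
      have h6 : κ (x / m) = κ (y / m) := dv2 e1 e2 h5
      have h7 : (x % g + a) % g = (y % g + a) % g := by rw [h6] at h5; omega
      have h8 : x % g ≡ y % g [MOD g] := Nat.ModEq.add_right_cancel' a h7
      have h9 : x % g = y % g := by
        have := h8
        rwa [Nat.ModEq, Nat.mod_mod, Nat.mod_mod] at this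
      rw [h6, h9]
    · intro h
      have h5 : κ (x / m) * g + x % g = κ (y / m) * g + y % g := by omega
      have h6 : κ (x / m) = κ (y / m) := dv2 e3 e4 h5
      have h7 : x % g = y % g := by rw [h6] at h5; omega
      rw [h6, h7]
  · rw [h1 x hx, h2 y hy, h3 x hx, h4 y hy]
    omega
  · rw [h2 x hx, h1 y hy, h4 x hx, h3 y hy]
    omega
  · rw [h2 x hx, h2 y hy, h4 x hx, h4 y hy]

end

end Pool.Agent.Y345
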