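import Pool.Agent.Y345.Big
import Pool.Agent.TH848.Rec.D76

/-!
Steiner systems `S(2,6,n)` for `n = 646, 771, 801`.
-/

set_option autoImplicit false

namespace Pool.Agent.Y345

theorem s31 : Sd 6 31 :=
  sd_of_chk (m := 31) (c := 1) (hs := []) (base := [[0, 1, 3, 8, 12, 18]])
    (by decide +kernel) (by norm_num)

theorem s76 : Sd 6 76 := sd_of_isS2 Pool.Agent.TH848.Rec.s2_d76 (by norm_num)

theorem s646 : Sd 6 646 :=
  sd_of_type (w := 1) (by norm_num) g30_19_75 (hd_of_sd le_rfl s31) s76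

theorem s771 : Sd 6 771 :=
  sd_of_type (w := 1) (by norm_num) g5_139_75
    (hd_of_sd le_rfl (sd_of_chk (m := 6) (c := 1) (hs := []) (base := [[0, 1, 2, 3, 4, 5]])
      (by decide +kernel) (by norm_num))) s76

theorem s801 : Sd 6 801 :=
  sd_of_type (w := 6) (by norm_num) g25_29_70 (hd_of_sd_block (by norm_num) s31) s76

end Pool.Agent.Y345
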