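import Pool.Agent.Y345.Chk
import Pool.Agent.H816R2.KM2

/-!
Group divisible designs of type `g^a h^1`, incomplete designs and Steiner systems from base blocks.
-/

set_option autoImplicit false

namespace Pool.Agent.Y345

open Finset

theorem sd_of_isS2 {k n : ℕ} (h : ∃ 𝓑 : Set (Finset (Fin n)), Pool.Agent.H816R2.KM2.IsS2 (Fin n) k 𝓑)
    (hk : 2 ≤ k) : Sd k n := by
  classical
  obtain ⟨𝓑, h1, h2⟩ := h
  have h3 : De k (fun _ _ : Fin n => True) := by
    refine ⟨𝓑, h1, fun _ _ _ _ _ _ _ => trivial, ?_⟩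
    intro a b hab _
    obtain ⟨B, ⟨hB, ha, hb⟩, hu⟩ := h2 a b hab
    exact ⟨B, hB, ha, hb, fun D hD h4 h5 => hu D ⟨hD, h4, h5⟩⟩
  refine (h3.map hk Fin.val (fun _ => True) (fun _ _ _ _ => ⟨trivial, trivial⟩)
    (fun a b _ _ h => Fin.ext h)).congr ?_
  intro a b hab
  constructor
  · rintro ⟨x, y, rfl, rfl, -, -⟩
    exact ⟨x.2, y.2⟩
  · rintro ⟨ha, hb⟩
    exact ⟨⟨a, ha⟩, ⟨b, hb⟩, rfl, rfl, fun h => hab (by simpa using h), trivial⟩

/-- the usual formulation of a Steiner system -/
theorem steiner_of_sd {k n : ℕ} (hk : 2 ≤ k) (h : Sd k n) :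
    ∃ B : Finset (Finset (Fin n)), (∀ b ∈ B, b.card = k) ∧
      ∀ T : Finset (Fin n), T.card = 2 → ∃! b, b ∈ B ∧ T ⊆ b := by
  classical
  obtain ⟨𝓑, h1, h2, h3⟩ := h
  let f : Finset ℕ → Finset (Fin n) := fun B => Finset.univ.filter fun x => x.val ∈ B
  have hlt : ∀ B ∈ 𝓑, ∀ x ∈ B, x < n := by
    intro B hB x hx
    obtain ⟨y, hy, hyx⟩ : ∃ y ∈ B, y ≠ x := by
      have : 1 < B.card := by rw [h1 B hB]; omega
      exact Finset.exists_mem_ne this x
    exact (h2 B hB x hx y hy hyx.symm).1
  have hf : ∀ B ∈ 𝓑, (f B).map Fin.valEmbedding = B := by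
    intro B hB
    ext x
    simp only [f, Finset.mem_map, Finset.mem_filter, Finset.mem_univ, true_and,
      Fin.valEmbedding_apply]
    constructor
    · rintro ⟨y, hy, rfl⟩
      exact hy
    · intro hx
      exact ⟨⟨x, hlt B hB x hx⟩, hx, rfl⟩
  refine ⟨Finset.univ.filter fun C => ∃ B ∈ 𝓑, C = f B, ?_, ?_⟩
  · intro C hC
    obtain ⟨B, hB, rfl⟩ := (Finset.mem_filter.1 hC).2
    rw [← h1 B hB, ← hf B hB, Finset.card_map, hf B hB]
  · intro T hT
    obtain ⟨a, b, hab, rfl⟩ := Finset.card_eq_two.1 hT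
    obtain ⟨B, hB, ha, hb, hu⟩ := h3 a.val b.val (fun h => hab (Fin.ext h)) ⟨a.2, b.2⟩
    refine ⟨f B, ⟨Finset.mem_filter.2 ⟨Finset.mem_univ _, B, hB, rfl⟩, ?_⟩, ?_⟩
    · intro x hx
      rcases Finset.mem_insert.1 hx with rfl | hx
      · exact Finset.mem_filter.2 ⟨Finset.mem_univ _, ha⟩
      · rw [Finset.mem_singleton.1 hx]
        exact Finset.mem_filter.2 ⟨Finset.mem_univ _, hb⟩
    · rintro C ⟨hC, hTC⟩
      obtain ⟨B', hB', rfl⟩ := (Finset.mem_filter.1 hC).2
      have h4 : a.val ∈ B' := (Finset.mem_filter.1 (hTC (by simp))).2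
      have h5 : b.val ∈ B' := (Finset.mem_filter.1 (hTC (by simp))).2
      rw [hu B' hB' h4 h5]

theorem hd_of_chk {k m c : ℕ} {hs : List ℕ} {base : List (List ℕ)}
    (h : chk k m c hs (fun i => i) m base = true) : Hd k (c * m) hs.sum := by
  have hm : 0 < m := by
    unfold chk at h
    simp only [Bool.and_eq_true, decide_eq_true_eq] at h
    exact h.1.1.1.1.1.2
  refine (de_of_chk h).congr ?_
  have h1 : ∀ q, q < c * m → key m (c * m) (fun i => i) m q = q + 1 := by
    intro q hq
    unfold key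
    rw [if_pos hq, mul_comm, Nat.div_add_mod]
  have h2 : ∀ q, ¬ q < c * m → key m (c * m) (fun i => i) m q = 0 := by
    intro q hq
    unfold key
    rw [if_neg hq]
  intro a b hab
  rw [Finset.mem_range, Finset.mem_range]
  by_cases ha : a < c * m <;> by_cases hb : b < c * m
  · rw [h1 a ha, h1 b hb]
    constructor
    · rintro ⟨h3, h4, -⟩
      exact ⟨h3, h4, fun h => by omega⟩
    · rintro ⟨h3, h4, -⟩
      exact ⟨h3, h4, fun h => hab (by omega)⟩
  · rw [h1 a ha, h2 b hb]
    constructor
    · rintro ⟨h3, h4, -⟩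
      exact ⟨h3, h4, fun h => by omega⟩
    · rintro ⟨h3, h4, -⟩
      exact ⟨h3, h4, by omega⟩
  · rw [h2 a ha, h1 b hb]
    constructor
    · rintro ⟨h3, h4, -⟩
      exact ⟨h3, h4, fun h => by omega⟩
    · rintro ⟨h3, h4, -⟩
      exact ⟨h3, h4, by omega⟩
  · rw [h2 a ha, h2 b hb]
    constructor
    · rintro ⟨h3, h4, h5⟩
      exact absurd rfl h5
    · rintro ⟨h3, h4, h5⟩
      exact absurd ⟨by omega, by omega⟩ h5

theorem sd_of_chk {k m c : ℕ} {hs : List ℕ} {base : List (List ℕ)}
    (h : chk k m c hs (fun i => i) m base = true) (hw : hs.sum ≤ 1) : Sd k (c * m + hs.sum) :=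
  sd_of_hd hw (hd_of_chk h)

/-- a group divisible design of type `t^g w^1`, the groups of size `t` being residue classes -/
theorem gd_of_chk {k m c g : ℕ} {hs : List ℕ} {base : List (List ℕ)} (t w : ℕ)
    (h : chk k m c hs (fun _ => 0) g base = true) (ht : t * g = c * m) (hw : hs.sum = w) :
    Gd k (fun i : Fin (g + 1) => if i = 0 then w else t) := by
  classical
  have h' := h
  unfold chk at h'
  simp only [Bool.and_eq_true, decide_eq_true_eq, beq_iff_eq] at h'
  obtain ⟨⟨⟨⟨⟨⟨hk, hm⟩, hg⟩, hgm⟩, hhs⟩, hB⟩, hi⟩ := h'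
  have h1 : ∀ q, q < c * m → key m (c * m) (fun _ => 0) g q = q % g + 1 := by
    intro q hq
    unfold key
    rw [if_pos hq, zero_mul, zero_add]
  have h2 : ∀ q, ¬ q < c * m → key m (c * m) (fun _ => 0) g q = 0 := by
    intro q hq
    unfold key
    rw [if_neg hq]
  have hlt : ∀ q, key m (c * m) (fun _ => 0) g q < g + 1 := by
    intro q
    by_cases hq : q < c * m
    · rw [h1 q hq]
      have := Nat.mod_lt q hg
      omega
    · rw [h2 q hq]
      omega
  refine gd_of_key (X := ℕ) hk (Finset.range (c * m + hs.sum))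
    (fun q => (⟨key m (c * m) (fun _ => 0) g q, hlt q⟩ : Fin (g + 1))) _ ?_ ?_
  · intro i
    by_cases hi0 : i = 0
    · subst hi0
      rw [if_pos rfl]
      have : (Finset.range (c * m + hs.sum)).filter (fun q =>
          (⟨key m (c * m) (fun _ => 0) g q, hlt q⟩ : Fin (g + 1)) = 0) =
          Finset.Ico (c * m) (c * m + hs.sum) := by
        ext q
        rw [Finset.mem_filter, Finset.mem_range, Finset.mem_Ico, Fin.ext_iff]
        simp only [Fin.val_zero]
        by_cases hq : q < c * m
        · rw [h1 q hq]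
          omega
        · rw [h2 q hq]
          omega
      rw [this, Nat.card_Ico, Nat.add_sub_cancel_left, hw]
    · rw [if_neg hi0]
      obtain ⟨j, hj⟩ : ∃ j, i.val = j + 1 := by
        have : i.val ≠ 0 := fun h => hi0 (Fin.ext h)
        exact ⟨i.val - 1, by omega⟩
      have hjg : j < g := by
        have := i.2
        omega
      have : (Finset.range (c * m + hs.sum)).filter (fun q =>
          (⟨key m (c * m) (fun _ => 0) g q, hlt q⟩ : Fin (g + 1)) = i) =
          (Finset.range t).image (fun x => x * g + j) := by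
        ext q
        rw [Finset.mem_filter, Finset.mem_range, Finset.mem_image, Fin.ext_iff]
        simp only [hj, Finset.mem_range]
        constructor
        · rintro ⟨h3, h4⟩
          by_cases hq : q < c * m
          · rw [h1 q hq] at h4
            refine ⟨q / g, Nat.div_lt_of_lt_mul (by rw [mul_comm, ht]; exact hq), ?_⟩
            have := Nat.div_add_mod q g
            rw [mul_comm] at this
            omega
          · rw [h2 q hq] at h4
            omega
        · rintro ⟨x, hx, rfl⟩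
          have h3 : x * g + j < c * m := by
            rw [← ht]
            calc x * g + j < x * g + g := by omega
              _ = (x + 1) * g := by ring
              _ ≤ t * g := Nat.mul_le_mul_right _ hx
          refine ⟨by omega, ?_⟩
          rw [h1 _ h3, Nat.mul_add_mod', Nat.mod_eq_of_lt hjg]
      rw [this, Finset.card_image_of_injective, Finset.card_range]
      intro x y hxy
      simp only at hxy
      have : x * g = y * g := by omega
      exact Nat.eq_of_mul_eq_mul_right hg this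
  · refine (de_of_chk h).congr ?_
    intro a b _
    simp only [ne_eq, Fin.mk.injEq]

/-- filling a group divisible design of type `g^a h^1` -/
theorem sd_of_type {k a g h w : ℕ} (hk : 2 ≤ k)
    (hG : Gd k (fun i : Fin (a + 1) => if i = 0 then h else g)) (h1 : Hd k g w)
    (h2 : Sd k (h + w)) : Sd k (h + a * g + w) := by
  have h3 := fillS hk hG 0 (fun i hi => by rw [if_neg hi]; exact h1) (by simpa using h2)
  rw [Fin.sum_univ_succ] at h3
  simpa [Fin.succ_ne_zero] using h3

end Pool.Agent.Y345
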