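import Pool.Agent.Y345.Types

/-!
Group divisible designs of type `t^(s g) w^1` from base blocks, the groups of size `t` being given
by a class of orbits and a residue class.
-/

set_option autoImplicit false

namespace Pool.Agent.Y345

open Finset

theorem gd_of_chk2 {k m r s g : ℕ} {hs : List ℕ} {base : List (List ℕ)} (t w : ℕ)
    (h : chk k m (s * r) hs (fun i => i / r) g base = true) (hr : 0 < r)
    (ht : t * g = r * m) (hw : hs.sum = w) :
    Gd k (fun i : Fin (s * g + 1) => if i = 0 then w else t) := by
  classical
  have h' := h
  unfold chk at h'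
  simp only [Bool.and_eq_true, decide_eq_true_eq, beq_iff_eq] at h'
  obtain ⟨⟨⟨⟨⟨⟨hk, hm⟩, hg⟩, hgm⟩, hhs⟩, hB⟩, hi⟩ := h'
  have hrm : 0 < r * m := Nat.mul_pos hr hm
  have hc : s * r * m = s * (r * m) := by ring
  have h1 : ∀ q, q < s * r * m → key m (s * r * m) (fun i => i / r) g q =
      q / (r * m) * g + q % g + 1 := by
    intro q hq
    unfold key
    rw [if_pos hq]
    show q / m / r * g + q % g + 1 = _
    rw [Nat.div_div_eq_div_mul, mul_comm m r]
  have h2 : ∀ q, ¬ q < s * r * m → key m (s * r * m) (fun i => i / r) g q = 0 := by
    intro q hq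
    unfold key
    rw [if_neg hq]
  have hlt : ∀ q, key m (s * r * m) (fun i => i / r) g q < s * g + 1 := by
    intro q
    by_cases hq : q < s * r * m
    · rw [h1 q hq]
      have h3 := Nat.mod_lt q hg
      have h4 : q / (r * m) < s := Nat.div_lt_of_lt_mul (by rw [mul_comm, ← hc]; exact hq)
      have h5 : (q / (r * m) + 1) * g ≤ s * g := Nat.mul_le_mul_right _ h4
      rw [Nat.add_mul, one_mul] at h5
      omega
    · rw [h2 q hq]
      omega
  refine gd_of_key (X := ℕ) hk (Finset.range (s * r * m + hs.sum))
    (fun q => (⟨key m (s * r * m) (fun i => i / r) g q, hlt q⟩ : Fin (s * g + 1))) _ ?_ ?_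
  · intro i
    by_cases hi0 : i = 0
    · subst hi0
      rw [if_pos rfl]
      have : (Finset.range (s * r * m + hs.sum)).filter (fun q =>
          (⟨key m (s * r * m) (fun i => i / r) g q, hlt q⟩ : Fin (s * g + 1)) = 0) =
          Finset.Ico (s * r * m) (s * r * m + hs.sum) := by
        ext q
        rw [Finset.mem_filter, Finset.mem_range, Finset.mem_Ico, Fin.ext_iff]
        simp only [Fin.val_zero]
        by_cases hq : q < s * r * m
        · rw [h1 q hq]
          omega
        · rw [h2 q hq]
          omega
      rw [this, Nat.card_Ico, Nat.add_sub_cancel_left, hw]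
    · rw [if_neg hi0]
      obtain ⟨j, hj⟩ : ∃ j, i.val = j + 1 := by
        have : i.val ≠ 0 := fun h => hi0 (Fin.ext h)
        exact ⟨i.val - 1, by omega⟩
      have hjg : j < s * g := by
        have := i.2
        omega
      have hjm : j % g < g := Nat.mod_lt _ hg
      have hjd : j / g < s := Nat.div_lt_of_lt_mul (by rw [mul_comm]; exact hjg)
      have hjj := Nat.div_add_mod j g
      have hrmg : (r * m) % g = 0 := by
        rw [← ht]
        exact Nat.mul_mod_left _ _
      have : (Finset.range (s * r * m + hs.sum)).filter (fun q =>
          (⟨key m (s * r * m) (fun i => i / r) g q, hlt q⟩ : Fin (s * g + 1)) = i) =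
          (Finset.range t).image (fun x => x * g + j % g + j / g * (r * m)) := by
        ext q
        rw [Finset.mem_filter, Finset.mem_range, Finset.mem_image, Fin.ext_iff]
        simp only [hj, Finset.mem_range]
        constructor
        · rintro ⟨h3, h4⟩
          by_cases hq : q < s * r * m
          · rw [h1 q hq] at h4
            have h5 : q / (r * m) * g + q % g = j := by omega
            have h6 : q % g < g := Nat.mod_lt _ hg
            have h7 : j / g = q / (r * m) := by
              rw [← h5, Nat.add_comm, Nat.add_mul_div_right _ _ hg, Nat.div_eq_of_lt h6,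
                Nat.zero_add]
            have h8 : j % g = q % g := by
              rw [← h5, Nat.add_comm, Nat.add_mul_mod_self_right, Nat.mod_eq_of_lt h6]
            have h9 := Nat.div_add_mod q (r * m)
            have h10 : q % (r * m) < t * g := by
              rw [ht]
              exact Nat.mod_lt _ hrm
            have h11 : q % (r * m) % g = q % g :=
              Nat.mod_mod_of_dvd _ (Nat.dvd_of_mod_eq_zero hrmg)
            refine ⟨q % (r * m) / g, Nat.div_lt_of_lt_mul (by rw [mul_comm g t]; exact h10), ?_⟩
            have h12 := Nat.div_add_mod (q % (r * m)) g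
            rw [h7, h8, ← h11, mul_comm _ g, h12, mul_comm _ (r * m)]
            omega
          · rw [h2 q hq] at h4
            omega
        · rintro ⟨x, hx, rfl⟩
          have h3 : x * g + j % g < r * m := by
            rw [← ht]
            calc x * g + j % g < x * g + g := by omega
              _ = (x + 1) * g := by ring
              _ ≤ t * g := Nat.mul_le_mul_right _ hx
          have h4 : x * g + j % g + j / g * (r * m) < s * r * m := by
            rw [hc]
            calc x * g + j % g + j / g * (r * m) < r * m + j / g * (r * m) := by omega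
              _ = (j / g + 1) * (r * m) := by ring
              _ ≤ s * (r * m) := Nat.mul_le_mul_right _ hjd
          refine ⟨by omega, ?_⟩
          rw [h1 _ h4, Nat.add_mul_div_right _ _ hrm, Nat.div_eq_of_lt h3, Nat.zero_add,
            Nat.add_mod, Nat.mul_mod (j / g), hrmg, Nat.mul_zero, Nat.zero_mod, Nat.add_zero,
            Nat.mul_add_mod', Nat.mod_mod]
          have h5 : (j % g + 0) % g = j % g := by rw [Nat.add_zero, Nat.mod_mod]
          rw [h5, mul_comm (j / g) g]
          omega
      rw [this, Finset.card_image_of_injective, Finset.card_range]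
      intro x y hxy
      simp only at hxy
      have : x * g = y * g := by omega
      exact Nat.eq_of_mul_eq_mul_right hg this
  · refine (de_of_chk h).congr ?_
    intro a b _
    simp only [ne_eq, Fin.mk.injEq]

end Pool.Agent.Y345
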